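import Pool.Agent.Helper236.Tang

set_option autoImplicit false

/-!
Geometries `A ∪ D` where `A` is a set of `q` affine points, one for every element of the field,
and `D` is the set of their directions: such a geometry is a `1`-block in which `D` is a modular
hyperplane.
-/

namespace Pool.Agent.Q163.TB

open Set Module Submodule Pool.Agent.Helper236

variable {α F W : Type*} [Field F] [AddCommGroup W] [Module F W]
  {M : Matroid α} {v : α → W}

/-- If the `q` affine points have all their directions in `M`, every functional kills a point. -/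
theorem block_of_dirs [Finite F] {A : F → α} (hAE : ∀ x, A x ∈ M.E)
    (hd : ∀ x y, x ≠ y → ∃ e ∈ M.E, ∃ c : F, v (A x) - v (A y) = c • v e ∧ c ≠ 0)
    (f : W →ₗ[F] (Fin 1 → F)) : ∃ e ∈ M.E, f (v e) = 0 := by
  by_contra hcon
  push Not at hcon
  have hinj : Function.Injective (fun x : F => f (v (A x)) 0) := by
    intro x y hxy
    by_contra hne
    obtain ⟨e, he, c, hc, hc0⟩ := hd x y hne
    apply hcon e he
    have h1 : f (v (A x)) - f (v (A y)) = c • f (v e) := by
      rw [← map_sub, hc, map_smul]
    have h2 : c • f (v e) = 0 := by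
      rw [← h1]
      ext i
      rw [Subsingleton.elim i 0]
      simpa [sub_eq_zero] using hxy
    rcases smul_eq_zero.1 h2 with h | h
    · exact absurd h hc0
    · exact h
  have hsurj : Function.Surjective (fun x : F => f (v (A x)) 0) :=
    Finite.surjective_of_injective hinj
  obtain ⟨x, hx⟩ := hsurj 0
  apply hcon (A x) (hAE x)
  ext i
  rw [Subsingleton.elim i 0]
  exact hx

/-- The directions form a modular hyperplane. -/
theorem modular_of_dirs (h : Rep F M v) [M.Finite] (φ : W →ₗ[F] F) {A : F → α}
    (hAE : ∀ x, A x ∈ M.E) (hA : ∀ x, φ (v (A x)) = 1)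
    (hA' : ∀ e ∈ M.E, φ (v e) ≠ 0 → ∃ x, e = A x)
    (hd : ∀ x y, x ≠ y → ∃ e ∈ M.E, ∃ c : F, v (A x) - v (A y) = c • v e ∧ c ≠ 0) :
    IsModularHyperplane M {e | e ∈ M.E ∧ φ (v e) = 0} := by
  set D : Set α := {e | e ∈ M.E ∧ φ (v e) = 0} with hD
  have hDE : D ⊆ M.E := fun e he => he.1
  have hker : ∀ X ⊆ D, span F (v '' X) ≤ LinearMap.ker φ := by
    intro X hX
    rw [span_le]
    rintro _ ⟨e, he, rfl⟩
    exact (hX he).2
  have hDflat : M.IsFlat D := by
    rw [Matroid.isFlat_iff_closure_eq]
    refine Subset.antisymm ?_ (M.subset_closure D hDE)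
    intro e he
    have heE : e ∈ M.E := M.closure_subset_ground _ he
    exact ⟨heE, hker D Subset.rfl ((h.mem_closure_iff hDE heE).1 he)⟩
  -- a direction in a flat
  have hdir : ∀ G, M.IsFlat G → ∀ x y, x ≠ y → A x ∈ G → A y ∈ G →
      ∃ e ∈ D ∩ G, ∃ c : F, v (A x) - v (A y) = c • v e := by
    intro G hG x y hxy hx hy
    obtain ⟨e, he, c, hc, hc0⟩ := hd x y hxy
    have heφ : φ (v e) = 0 := by
      have h1 := congrArg φ hc
      rw [map_sub, hA, hA, sub_self, map_smul, smul_eq_mul] at h1
      rcases mul_eq_zero.1 h1.symm with h2 | h2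
      · exact absurd h2 hc0
      · exact h2
    refine ⟨e, ⟨⟨he, heφ⟩, ?_⟩, c, hc⟩
    rw [← hG.closure, h.mem_closure_iff hG.subset_ground he]
    have h2 : v e = c⁻¹ • (v (A x) - v (A y)) := by
      rw [hc, smul_smul, inv_mul_cancel₀ hc0, one_smul]
    rw [h2]
    exact smul_mem _ _ (sub_mem (subset_span (mem_image_of_mem v hx))
      (subset_span (mem_image_of_mem v hy)))
  -- the rank of `X ∪ {A x}` for `X ⊆ D`
  have hrk1 : ∀ X ⊆ D, ∀ x, finrank F ↥(span F (v '' X) ⊔ span F {v (A x)}) =
      finrank F (span F (v '' X)) + 1 := by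
    intro X hX x
    have hfd1 : FiniteDimensional F (span F (v '' X)) :=
      FiniteDimensional.span_of_finite F ((M.ground_finite.subset (hX.trans hDE)).image v)
    have hfd2 : FiniteDimensional F (span F {v (A x)}) :=
      FiniteDimensional.span_of_finite F (Set.finite_singleton _)
    have hinf : span F (v '' X) ⊓ span F {v (A x)} = ⊥ := by
      rw [eq_bot_iff]
      intro w hw
      obtain ⟨hw1, hw2⟩ := Submodule.mem_inf.1 hw
      have h1 : φ w = 0 := hker X hX hw1
      obtain ⟨c, rfl⟩ := Submodule.mem_span_singleton.1 hw2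
      rw [map_smul, hA, smul_eq_mul, mul_one] at h1
      rw [h1, zero_smul]
      exact Submodule.zero_mem _
    have hne : v (A x) ≠ 0 := by
      intro h0
      have := hA x
      rw [h0, map_zero] at this
      exact zero_ne_one this
    have h2 := Submodule.finrank_sup_add_finrank_inf_eq (span F (v '' X)) (span F {v (A x)})
    rw [hinf, finrank_bot, add_zero, finrank_span_singleton hne] at h2
    exact h2
  -- flats not inside `D`
  have hspanG : ∀ G, M.IsFlat G → ∀ x, A x ∈ G →
      span F (v '' G) = span F (v '' (D ∩ G)) ⊔ span F {v (A x)} := by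
    intro G hG x hx
    apply le_antisymm
    · rw [span_le]
      rintro _ ⟨e, he, rfl⟩
      have heE : e ∈ M.E := hG.subset_ground he
      by_cases h0 : φ (v e) = 0
      · exact Submodule.mem_sup_left (subset_span (mem_image_of_mem v ⟨⟨heE, h0⟩, he⟩))
      · obtain ⟨y, rfl⟩ := hA' e heE h0
        by_cases hxy : y = x
        · subst hxy
          exact Submodule.mem_sup_right (subset_span rfl)
        · obtain ⟨e', he', c, hc⟩ := hdir G hG y x hxy he hx
          have h3 : v (A y) = c • v e' + v (A x) := by rw [← hc]; abel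
          rw [SetLike.mem_coe, h3]
          exact add_mem (Submodule.mem_sup_left
            (smul_mem _ _ (subset_span (mem_image_of_mem v he'))))
            (Submodule.mem_sup_right (subset_span rfl))
    · refine sup_le (span_mono (image_mono inter_subset_right)) ?_
      rw [span_le]
      rintro _ rfl
      exact subset_span (mem_image_of_mem v hx)
  have hEflat : M.IsFlat M.E := M.ground_isFlat
  have hAD : ∀ x, span F (v '' M.E) = span F (v '' D) ⊔ span F {v (A x)} := by
    intro x
    have := hspanG M.E hEflat x (hAE x)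
    rwa [inter_eq_left.2 hDE] at this
  have hrkE : rk M M.E = rk M D + 1 := by
    rw [h.rk_eq Subset.rfl, h.rk_eq hDE, hAD 0, hrk1 D Subset.rfl]
  refine ⟨⟨hDflat, ?_⟩, hrkE.symm⟩
  intro G hG
  have hGE : G ⊆ M.E := hG.subset_ground
  by_cases hGD : G ⊆ D
  · rw [union_eq_left.2 hGD, inter_eq_right.2 hGD]
  · obtain ⟨e, heG, heD⟩ := Set.not_subset.1 hGD
    have h0 : φ (v e) ≠ 0 := fun h0 => heD ⟨hGE heG, h0⟩
    obtain ⟨x, rfl⟩ := hA' e (hGE heG) h0
    have h1 : rk M G = rk M (D ∩ G) + 1 := by
      rw [h.rk_eq hGE, h.rk_eq (inter_subset_left.trans hDE), hspanG G hG x heG,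
        hrk1 (D ∩ G) inter_subset_left]
    have h2 : rk M (D ∪ G) = rk M M.E := by
      have hsub : D ∪ G ⊆ M.E := union_subset hDE hGE
      rw [h.rk_eq hsub, h.rk_eq Subset.rfl]
      have h3 : span F (v '' (D ∪ G)) = span F (v '' M.E) := by
        apply le_antisymm (span_mono (image_mono hsub))
        rw [hAD x]
        refine sup_le (span_mono (image_mono subset_union_left)) ?_
        rw [span_le]
        rintro _ rfl
        exact subset_span (mem_image_of_mem v (Or.inr heG))
      rw [h3]
    rw [h1, h2, hrkE]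
    omega

end Pool.Agent.Q163.TB
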