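import Pool.Agent.Q163.TB.Seven

set_option autoImplicit false

/-!
Checks for tangents in rank four, and for the absence of modular lines.
-/

namespace Pool.Agent.Q163.TB

open Set Module Submodule Pool.Agent.Helper236

section general

variable {α F W : Type*} [Field F] [AddCommGroup W] [Module F W]
  {M : Matroid α} {v : α → W}

theorem rk_lt_of_flat (h : Rep F M v) [M.Finite] {X Y : Set α} (hX : M.IsFlat X)
    (hYE : Y ⊆ M.E) (hXY : X ⊆ Y) (hne : X ≠ Y) : rk M X < rk M Y := by
  have hXE : X ⊆ M.E := hXY.trans hYE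
  rw [h.rk_eq hXE, h.rk_eq hYE]
  have hfd : FiniteDimensional F (span F (v '' Y)) :=
    FiniteDimensional.span_of_finite F ((M.ground_finite.subset hYE).image v)
  apply Submodule.finrank_lt_finrank_of_lt
  refine lt_of_le_of_ne (span_mono (image_mono hXY)) fun heq => ?_
  obtain ⟨y, hyY, hyX⟩ := Set.exists_of_ssubset (hXY.ssubset_of_ne hne)
  have : y ∈ M.closure X := (h.mem_closure_iff hXE (hYE hyY)).2 (by
    rw [heq]
    exact subset_span (mem_image_of_mem v hyY))
  rw [hX.closure] at this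
  exact hyX this

theorem rk_le (h : Rep F M v) [M.Finite] {X Y : Set α} (hXY : X ⊆ Y) (hYE : Y ⊆ M.E) :
    rk M X ≤ rk M Y := by
  rw [h.rk_eq (hXY.trans hYE), h.rk_eq hYE]
  have hfd : FiniteDimensional F (span F (v '' Y)) :=
    FiniteDimensional.span_of_finite F ((M.ground_finite.subset hYE).image v)
  exact Submodule.finrank_mono (span_mono (image_mono hXY))

theorem rk_pair [M.Finite] (hs : IsSimple M) {i j : α} (hi : i ∈ M.E)
    (hj : j ∈ M.E) (hij : i ≠ j) : rk M {i, j} = 2 := by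
  rw [rk, (hs i hi j hj).eRk_eq_encard, Set.encard_pair hij]
  rfl

/-- a flat of rank two is spanned by any two of its points -/
theorem span_line (h : Rep F M v) [M.Finite] (hs : IsSimple M) {G : Set α} (hG : M.IsFlat G)
    (hr : rk M G ≤ 2) {i j : α} (hi : i ∈ G) (hj : j ∈ G) (hij : i ≠ j) :
    span F (v '' G) = span F {v i, v j} := by
  have hGE := hG.subset_ground
  have hsub : ({i, j} : Set α) ⊆ G := by
    intro x hx
    rcases hx with rfl | rfl <;> assumption
  have h1 : span F (v '' {i, j}) ≤ span F (v '' G) := span_mono (image_mono hsub)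
  have hfd : FiniteDimensional F (span F (v '' G)) :=
    FiniteDimensional.span_of_finite F ((M.ground_finite.subset hGE).image v)
  have h2 := Submodule.eq_of_le_of_finrank_le h1 (by
    rw [← h.rk_eq hGE, ← h.rk_eq (hsub.trans hGE), rk_pair hs (hGE hi) (hGE hj) hij]
    exact hr)
  rw [← h2, image_pair]

/-- In rank at most 4 and for `k = 1` only points and lines have to be checked. -/
theorem rank_four_flats [Finite F] [FiniteDimensional F W] [M.Finite] (h : Rep F M v)
    (hs : IsSimple M) (hr : rk M M.E ≤ 4)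
    (hT : ∀ e ∈ M.E, ∃ f : W →ₗ[F] F, f (v e) = 0 ∧ ∀ x ∈ M.E, x ≠ e → f (v x) ≠ 0)
    (hT2 : ∀ i ∈ M.E, ∀ j ∈ M.E, i ≠ j → ∃ f : W →ₗ[F] F, f (v i) = 0 ∧ f (v j) = 0 ∧
      ∀ x ∈ M.E, f (v x) = 0 → v x ∈ span F {v i, v j})
    (G : Set α) (hG : M.IsFlat G) (hGne : G.Nonempty) :
    ∃ f : W →ₗ[F] (Fin 1 → F), (∀ x ∈ G, f (v x) = 0) ∧ ∀ x ∈ M.E, x ∉ G → f (v x) ≠ 0 := by
  suffices hsuff : ∃ f : W →ₗ[F] F, (∀ x ∈ G, f (v x) = 0) ∧ ∀ x ∈ M.E, x ∉ G → f (v x) ≠ 0 by
    obtain ⟨f, hf1, hf2⟩ := hsuff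
    refine ⟨LinearMap.pi (fun _ => f), ?_, ?_⟩
    · intro x hx
      ext i
      simpa using hf1 x hx
    · intro x hx hxG h0
      apply hf2 x hx hxG
      have := congrFun h0 0
      simpa using this
  have hGE : G ⊆ M.E := hG.subset_ground
  obtain ⟨e, he⟩ := hGne
  by_cases h1 : G = {e}
  · obtain ⟨f, hf1, hf2⟩ := hT e (hGE he)
    refine ⟨f, ?_, ?_⟩
    · intro x hx
      rw [h1] at hx
      rw [hx]
      exact hf1
    · intro x hx hxG
      refine hf2 x hx ?_
      rintro rfl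
      exact hxG he
  by_cases h2 : G = M.E
  · refine ⟨0, by simp, ?_⟩
    intro x hx hxG
    rw [h2] at hxG
    exact absurd hx hxG
  have hb := rk_lt_of_flat h hG Subset.rfl hGE h2
  by_cases h3 : rk M G + 1 = rk M M.E
  · exact exists_functional h hG h3
  · have hr2 : rk M G ≤ 2 := by omega
    have hex : ∃ j ∈ G, j ≠ e := by
      by_contra hcon
      push Not at hcon
      exact h1 (Subset.antisymm (fun x hx => hcon x hx) (singleton_subset_iff.2 he))
    obtain ⟨j, hj, hje⟩ := hex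
    obtain ⟨f, hf1, hf2, hf3⟩ := hT2 e (hGE he) j (hGE hj) (Ne.symm hje)
    have hsp := span_line h hs hG hr2 he hj (Ne.symm hje)
    refine ⟨f, ?_, ?_⟩
    · intro x hx
      have h4 : v x ∈ span F {v e, v j} := by
        rw [← hsp]
        exact subset_span (mem_image_of_mem v hx)
      have h5 : span F {v e, v j} ≤ LinearMap.ker f := by
        rw [span_le]
        rintro _ (rfl | rfl)
        · exact hf1
        · exact hf2
      exact h5 h4
    · intro x hx hxG h0
      apply hxG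
      have h4 := hf3 x hx h0
      rw [← hsp] at h4
      have := (h.mem_closure_iff hGE hx).2 h4
      rwa [hG.closure] at this

/-- the zero set of a functional is a flat -/
theorem isFlat_zero (h : Rep F M v) (f : W →ₗ[F] F) : M.IsFlat {e | e ∈ M.E ∧ f (v e) = 0} := by
  have hDE : {e | e ∈ M.E ∧ f (v e) = 0} ⊆ M.E := fun e he => he.1
  rw [Matroid.isFlat_iff_closure_eq]
  refine Subset.antisymm ?_ (M.subset_closure _ hDE)
  intro e he
  have heE : e ∈ M.E := M.closure_subset_ground _ he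
  refine ⟨heE, ?_⟩
  have h1 := (h.mem_closure_iff hDE heE).1 he
  have h2 : span F (v '' {e | e ∈ M.E ∧ f (v e) = 0}) ≤ LinearMap.ker f := by
    rw [span_le]
    rintro _ ⟨x, hx, rfl⟩
    exact hx.2
  exact h2 h1

/-- a line that misses a hyperplane is not modular -/
theorem not_modular_of_miss (h : Rep F M v) [M.Finite] (hs : IsSimple M) (hr : rk M M.E ≤ 4)
    {G : Set α} (hG : IsModularFlat M G) (hrG : rk M G = 2) {f : W →ₗ[F] F}
    (hf : ∀ x ∈ G, f (v x) ≠ 0) {s t u : α} (hs' : s ∈ M.E) (ht : t ∈ M.E) (hu : u ∈ M.E)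
    (htu : t ≠ u) (hfs : f (v s) = 0) (hft : f (v t) = 0) (hfu : f (v u) = 0)
    {g : W →ₗ[F] F} (hgs : g (v s) ≠ 0) (hgt : g (v t) = 0) (hgu : g (v u) = 0) : False := by
  have hGE : G ⊆ M.E := hG.1.subset_ground
  set Y : Set α := {e | e ∈ M.E ∧ f (v e) = 0} with hY
  have hYE : Y ⊆ M.E := fun e he => he.1
  have hmod := hG.2 Y (isFlat_zero h f)
  have hinter : G ∩ Y = ∅ := by
    ext x
    simp only [mem_inter_iff, mem_empty_iff_false, iff_false, not_and]
    intro hx hxY
    exact hf x hx hxY.2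
  have h0 : rk M (G ∩ Y) = 0 := by
    rw [hinter, rk, Matroid.eRk_empty]
    rfl
  have h1 : rk M (G ∪ Y) ≤ rk M M.E := rk_le h (union_subset hGE hYE) Subset.rfl
  have h2 : rk M (M.closure {t, u}) = 2 := by
    rw [rk, Matroid.eRk_closure_eq]
    exact rk_pair hs ht hu htu
  have htuE : ({t, u} : Set α) ⊆ M.E := by
    intro x hx
    rcases hx with rfl | rfl <;> assumption
  have hcl : ∀ x ∈ M.closure {t, u}, ∀ p : W →ₗ[F] F, p (v t) = 0 → p (v u) = 0 →
      p (v x) = 0 := by
    intro x hx p hpt hpu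
    have h3 := (h.mem_closure_iff htuE (M.closure_subset_ground _ hx)).1 hx
    have h4 : span F (v '' {t, u}) ≤ LinearMap.ker p := by
      rw [span_le]
      rintro _ ⟨y, hy, rfl⟩
      rcases hy with rfl | rfl
      · exact hpt
      · exact hpu
    exact h4 h3
  have h3 : rk M (M.closure {t, u}) < rk M Y := by
    refine rk_lt_of_flat h (M.isFlat_closure _) hYE ?_ ?_
    · intro x hx
      exact ⟨M.closure_subset_ground _ hx, hcl x hx f hft hfu⟩
    · intro heq
      have h4 : s ∈ M.closure {t, u} := by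
        rw [heq]
        exact ⟨hs', hfs⟩
      exact hgs (hcl s h4 g hgt hgu)
  omega

end general

variable (n : ℕ) (tab : List (List ℕ))

/-- every point has a tangent among the functionals in `T` -/
def chkT1 (T : List (List ℕ)) : Bool :=
  tab.all fun x => T.any fun g => dot g x % 7 == 0 &&
    tab.all fun y => x == y || dot g y % 7 != 0

/-- every line has a tangent among the functionals in `T` -/
def chkT2 (T : List (List ℕ)) : Bool :=
  tab.all fun x => tab.all fun y => x == y || T.any fun g => dot g x % 7 == 0 &&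
    dot g y % 7 == 0 && tab.all fun z => dot g z % 7 != 0 ||
      (List.range 7).any fun a => (List.range 7).any fun b => eqComb n z x y a b

/-- every line misses a hyperplane -/
def chkH (T : List (List ℕ)) (H : List (List ℕ × List ℕ × List ℕ × List ℕ)) : Bool :=
  tab.all fun x => tab.all fun y => x == y || T.any fun g => dot g x % 7 == 0 &&
    dot g y % 7 == 0 && H.any fun h => tab.all fun z => dot g z % 7 != 0 || dot h.1 z % 7 != 0

/-- the hyperplanes contain three independent points -/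
def chkHyp (T : List (List ℕ)) (H : List (List ℕ × List ℕ × List ℕ × List ℕ)) : Bool :=
  H.all fun h => (tab.contains h.2.1 && tab.contains h.2.2.1 && tab.contains h.2.2.2) &&
    (dot h.1 h.2.1 % 7 == 0 && dot h.1 h.2.2.1 % 7 == 0 && dot h.1 h.2.2.2 % 7 == 0 &&
    h.2.2.1 != h.2.2.2) &&
    T.any fun g => dot g h.2.1 % 7 != 0 && dot g h.2.2.1 % 7 == 0 && dot g h.2.2.2 % 7 == 0

variable {n tab}

theorem tangent_point (hl : chkLen n tab = true) (hnd : tab.Nodup) {T : List (List ℕ)}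
    (h : chkT1 tab T = true) :
    ∀ e ∈ (Mat n tab).E, ∃ f : (Fin n → ZMod 7) →ₗ[ZMod 7] ZMod 7, f (pt n tab e) = 0 ∧
      ∀ x ∈ (Mat n tab).E, x ≠ e → f (pt n tab x) ≠ 0 := by
  intro e _
  rw [chkT1, List.all_eq_true] at h
  have h1 := h _ (List.get_mem tab e)
  rw [List.any_eq_true] at h1
  obtain ⟨g, -, h2⟩ := h1
  rw [Bool.and_eq_true, beq_iff_eq, List.all_eq_true] at h2
  refine ⟨fn n g, (fn_vec_eq_zero (len_of_chk hl e)).2 h2.1, ?_⟩
  intro x _ hxe h0
  have h3 := h2.2 _ (List.get_mem tab x)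
  rw [Bool.or_eq_true, beq_iff_eq, bne_iff_ne] at h3
  rcases h3 with h3 | h3
  · exact hxe ((List.nodup_iff_injective_get.1 hnd) h3).symm
  · exact h3 ((fn_vec_eq_zero (len_of_chk hl x)).1 h0)

theorem tangent_line (hl : chkLen n tab = true) (hnd : tab.Nodup) {T : List (List ℕ)}
    (h : chkT2 n tab T = true) :
    ∀ i ∈ (Mat n tab).E, ∀ j ∈ (Mat n tab).E, i ≠ j →
      ∃ f : (Fin n → ZMod 7) →ₗ[ZMod 7] ZMod 7, f (pt n tab i) = 0 ∧ f (pt n tab j) = 0 ∧
      ∀ x ∈ (Mat n tab).E, f (pt n tab x) = 0 →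
        pt n tab x ∈ span (ZMod 7) {pt n tab i, pt n tab j} := by
  intro i _ j _ hij
  rw [chkT2, List.all_eq_true] at h
  have h1 := h _ (List.get_mem tab i)
  rw [List.all_eq_true] at h1
  have h2 := h1 _ (List.get_mem tab j)
  rw [Bool.or_eq_true, beq_iff_eq, List.any_eq_true] at h2
  rcases h2 with h2 | ⟨g, -, h2⟩
  · exact absurd ((List.nodup_iff_injective_get.1 hnd) h2) hij
  · rw [Bool.and_eq_true, Bool.and_eq_true, beq_iff_eq, beq_iff_eq, List.all_eq_true] at h2
    refine ⟨fn n g, (fn_vec_eq_zero (len_of_chk hl i)).2 h2.1.1,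
      (fn_vec_eq_zero (len_of_chk hl j)).2 h2.1.2, ?_⟩
    intro x _ h0
    have h3 := h2.2 _ (List.get_mem tab x)
    rw [Bool.or_eq_true, bne_iff_ne, List.any_eq_true] at h3
    rcases h3 with h3 | ⟨a, -, h3⟩
    · exact absurd ((fn_vec_eq_zero (len_of_chk hl x)).1 h0) h3
    · rw [List.any_eq_true] at h3
      obtain ⟨b, -, h4⟩ := h3
      have h5 := eqComb_spec h4
      rw [Submodule.mem_span_pair]
      exact ⟨a, b, h5.symm⟩

theorem no_modular_line (hl : chkLen n tab = true) (hnd : tab.Nodup)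
    (hsimp : chkSimple n tab = true) (hn : n ≤ 4) {T : List (List ℕ)}
    {H : List (List ℕ × List ℕ × List ℕ × List ℕ)} (h : chkH tab T H = true)
    (hH : chkHyp tab T H = true) {G : Set (Fin tab.length)} (hG : IsModularFlat (Mat n tab) G)
    (hr : rk (Mat n tab) G = 2) : False := by
  have hfin := Mat_finite n tab
  have hs := Mat_simple hsimp hnd
  have hrep := Mat_rep n tab
  have hrE : rk (Mat n tab) (Mat n tab).E ≤ 4 := by
    rw [hrep.rk_eq Subset.rfl]
    refine (Submodule.finrank_le _).trans ?_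
    rw [Module.finrank_fin_fun]
    exact hn
  -- two points of `G`
  have hne : G.Nonempty := by
    by_contra hcon
    rw [Set.not_nonempty_iff_eq_empty] at hcon
    rw [hcon, rk, Matroid.eRk_empty] at hr
    simp at hr
  obtain ⟨i, hi⟩ := hne
  have hex : ∃ j ∈ G, j ≠ i := by
    by_contra hcon
    push Not at hcon
    have hGi : G = {i} := Subset.antisymm (fun x hx => hcon x hx) (singleton_subset_iff.2 hi)
    rw [hGi, rk, ((isSimple_nonloop hs) i (mem_univ _)).eRk_eq] at hr
    simp at hr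
  obtain ⟨j, hj, hji⟩ := hex
  have hsp := span_line hrep hs hG.1 hr.le hi hj (Ne.symm hji)
  rw [chkH, List.all_eq_true] at h
  have h1 := h _ (List.get_mem tab i)
  rw [List.all_eq_true] at h1
  have h2 := h1 _ (List.get_mem tab j)
  rw [Bool.or_eq_true, beq_iff_eq, List.any_eq_true] at h2
  rcases h2 with h2 | ⟨g, -, h2⟩
  · exact hji ((List.nodup_iff_injective_get.1 hnd) h2).symm
  rw [Bool.and_eq_true, Bool.and_eq_true, beq_iff_eq, beq_iff_eq, List.any_eq_true] at h2
  obtain ⟨⟨hgi, hgj⟩, ⟨p, s', t', u'⟩, hp, h3⟩ := h2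
  rw [List.all_eq_true] at h3
  rw [chkHyp, List.all_eq_true] at hH
  have h4 := hH _ hp
  simp only [Bool.and_eq_true, List.contains_iff_mem, beq_iff_eq, bne_iff_ne,
    List.any_eq_true] at h4
  obtain ⟨⟨⟨⟨hs1, ht1⟩, hu1⟩, ⟨⟨hps, hpt⟩, hpu⟩, htu⟩, g', -, ⟨hgs, hgt⟩, hgu⟩ := h4
  obtain ⟨s, rfl⟩ := List.get_of_mem hs1
  obtain ⟨t, rfl⟩ := List.get_of_mem ht1
  obtain ⟨u, rfl⟩ := List.get_of_mem hu1
  refine not_modular_of_miss hrep hs hrE hG hr (f := fn n p) ?_ (s := s) (t := t) (u := u)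
    (mem_univ _) (mem_univ _) (mem_univ _) (fun h => htu (by rw [h]))
    ((fn_vec_eq_zero (len_of_chk hl s)).2 hps) ((fn_vec_eq_zero (len_of_chk hl t)).2 hpt)
    ((fn_vec_eq_zero (len_of_chk hl u)).2 hpu) (g := fn n g')
    (fun h0 => hgs ((fn_vec_eq_zero (len_of_chk hl s)).1 h0))
    ((fn_vec_eq_zero (len_of_chk hl t)).2 hgt) ((fn_vec_eq_zero (len_of_chk hl u)).2 hgu)
  intro x hx h0
  have h5 := h3 _ (List.get_mem tab x)
  rw [Bool.or_eq_true, bne_iff_ne, bne_iff_ne] at h5
  rcases h5 with h5 | h5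
  · apply h5
    rw [← fn_vec_eq_zero (len_of_chk hl x)]
    have h6 : pt n tab x ∈ span (ZMod 7) {pt n tab i, pt n tab j} := by
      rw [← hsp]
      exact subset_span (mem_image_of_mem _ hx)
    have h7 : span (ZMod 7) {pt n tab i, pt n tab j} ≤ LinearMap.ker (fn n g) := by
      rw [span_le]
      rintro _ (rfl | rfl)
      · exact (fn_vec_eq_zero (len_of_chk hl i)).2 hgi
      · exact (fn_vec_eq_zero (len_of_chk hl j)).2 hgj
    exact h7 h6
  · exact h5 ((fn_vec_eq_zero (len_of_chk hl x)).1 h0)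

end Pool.Agent.Q163.TB
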