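import Pool.Agent.Q163.TB.Gen

set_option autoImplicit false

/-!
Point sets over `GF(7)` given by lists of natural numbers, with checks by kernel computation.
-/

namespace Pool.Agent.Q163.TB

open Set Module Submodule Pool.Agent.Helper236

instance fact7 : Fact (Nat.Prime 7) := ⟨by norm_num⟩

/-- dot product of lists of natural numbers -/
def dot : List ℕ → List ℕ → ℕ
  | a :: as, b :: bs => a * b + dot as bs
  | _, _ => 0

theorem dot_eq (n : ℕ) : ∀ (g x : List ℕ), x.length ≤ n →
    dot g x = ∑ j : Fin n, g.getD j 0 * x.getD j 0 := by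
  induction n with
  | zero =>
    intro g x hx
    have : x = [] := List.length_eq_zero_iff.1 (by omega)
    subst this
    cases g <;> simp [dot]
  | succ n ih =>
    intro g x hx
    cases g with
    | nil => simp [dot]
    | cons a as =>
      cases x with
      | nil => simp [dot]
      | cons b bs =>
        rw [dot, Fin.sum_univ_succ, ih as bs (by simpa using hx)]
        simp

/-- the vector over `ZMod 7` with given coordinates -/
def vec (n : ℕ) (x : List ℕ) : Fin n → ZMod 7 := fun j => ((x.getD j 0 : ℕ) : ZMod 7)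

/-- the functional over `ZMod 7` with given coefficients -/
def fn (n : ℕ) (g : List ℕ) : (Fin n → ZMod 7) →ₗ[ZMod 7] ZMod 7 :=
  ∑ j : Fin n, ((g.getD j 0 : ℕ) : ZMod 7) • LinearMap.proj j

theorem fn_vec {n : ℕ} {g x : List ℕ} (hx : x.length ≤ n) :
    fn n g (vec n x) = ((dot g x : ℕ) : ZMod 7) := by
  rw [dot_eq n g x hx, fn, LinearMap.sum_apply]
  push_cast
  refine Finset.sum_congr rfl fun j _ => ?_
  simp [vec]

theorem fn_vec_eq_zero {n : ℕ} {g x : List ℕ} (hx : x.length ≤ n) :
    fn n g (vec n x) = 0 ↔ dot g x % 7 = 0 := by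
  rw [fn_vec hx, ZMod.natCast_eq_zero_iff, Nat.dvd_iff_mod_eq_zero]

theorem exists_list {n : ℕ} (f : (Fin n → ZMod 7) →ₗ[ZMod 7] ZMod 7) :
    f = fn n (List.ofFn fun j => (f (Pi.single j 1)).val) := by
  apply LinearMap.pi_ext'
  intro i
  ext
  simp only [LinearMap.coe_comp, LinearMap.coe_single, Function.comp_apply]
  rw [fn, LinearMap.sum_apply, Finset.sum_eq_single i]
  · simp
  · intro j _ hj
    simp [hj]
  · simp

variable (n : ℕ) (tab : List (List ℕ))

/-- the points -/
def pt (i : Fin tab.length) : Fin n → ZMod 7 := vec n (tab.get i)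

/-- the matroid of the points -/
noncomputable def Mat : Matroid (Fin tab.length) :=
  linMatroid (ZMod 7) (pt n tab) univ (Set.toFinite _)

theorem Mat_E : (Mat n tab).E = univ := rfl

theorem Mat_finite : (Mat n tab).Finite := ⟨Set.toFinite _⟩

theorem Mat_rep : Rep (ZMod 7) (Mat n tab) (pt n tab) := linMatroid_rep _ _ _

/-- all points have `n` coordinates -/
def chkLen : Bool := tab.all fun x => x.length == n

/-- `c • x ≠ y` -/
def neSmul (c : ℕ) (x y : List ℕ) : Bool :=
  (List.range n).any fun k => (c * x.getD k 0) % 7 != y.getD k 0 % 7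

/-- `x = y + c • z` -/
def eqAdd (x y z : List ℕ) (c : ℕ) : Bool :=
  (List.range n).all fun k => x.getD k 0 % 7 == (y.getD k 0 + c * z.getD k 0) % 7

/-- `z = a • x + b • y` -/
def eqComb (z x y : List ℕ) (a b : ℕ) : Bool :=
  (List.range n).all fun k => z.getD k 0 % 7 == (a * x.getD k 0 + b * y.getD k 0) % 7

/-- the points are distinct points of the projective space -/
def chkSimple : Bool :=
  tab.all fun x => neSmul n 0 x x && tab.all fun y => x == y ||
    (List.range 7).all fun c => neSmul n c x y

variable {n tab}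

theorem neSmul_spec {c : ℕ} {x y : List ℕ} (h : neSmul n c x y = true) :
    (c : ZMod 7) • vec n x ≠ vec n y := by
  intro heq
  rw [neSmul, List.any_eq_true] at h
  obtain ⟨k, hk, h1⟩ := h
  have hk' : k < n := List.mem_range.1 hk
  have h2 := congrFun heq ⟨k, hk'⟩
  have h3 : ((c * x.getD k 0 : ℕ) : ZMod 7) = ((y.getD k 0 : ℕ) : ZMod 7) := by
    push_cast
    exact h2
  rw [ZMod.natCast_eq_natCast_iff'] at h3
  rw [bne_iff_ne] at h1
  exact h1 h3

theorem eqAdd_spec {c : ℕ} {x y z : List ℕ} (h : eqAdd n x y z c = true) :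
    vec n x = vec n y + (c : ZMod 7) • vec n z := by
  rw [eqAdd, List.all_eq_true] at h
  ext j
  have h1 := h j (List.mem_range.2 j.2)
  rw [beq_iff_eq] at h1
  have h2 : ((x.getD j 0 : ℕ) : ZMod 7) = ((y.getD j 0 + c * z.getD j 0 : ℕ) : ZMod 7) := by
    rw [ZMod.natCast_eq_natCast_iff']
    exact h1
  push_cast at h2
  simpa [vec] using h2

theorem eqComb_spec {a b : ℕ} {x y z : List ℕ} (h : eqComb n z x y a b = true) :
    vec n z = (a : ZMod 7) • vec n x + (b : ZMod 7) • vec n y := by
  rw [eqComb, List.all_eq_true] at h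
  ext j
  have h1 := h j (List.mem_range.2 j.2)
  rw [beq_iff_eq] at h1
  have h2 : ((z.getD j 0 : ℕ) : ZMod 7) =
      ((a * x.getD j 0 + b * y.getD j 0 : ℕ) : ZMod 7) := by
    rw [ZMod.natCast_eq_natCast_iff']
    exact h1
  push_cast at h2
  simpa [vec] using h2

theorem len_of_chk (h : chkLen n tab = true) (i : Fin tab.length) : (tab.get i).length ≤ n := by
  rw [chkLen, List.all_eq_true] at h
  have := h _ (List.get_mem tab i)
  rw [beq_iff_eq] at this
  exact this.le

theorem ne_zero_of_chk (h : chkSimple n tab = true) (i : Fin tab.length) : pt n tab i ≠ 0 := by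
  rw [chkSimple, List.all_eq_true] at h
  have h1 := h _ (List.get_mem tab i)
  rw [Bool.and_eq_true] at h1
  have h2 := neSmul_spec h1.1
  intro h0
  apply h2
  rw [Nat.cast_zero, zero_smul]
  exact h0.symm

theorem Mat_simple (h : chkSimple n tab = true) (hnd : tab.Nodup) : IsSimple (Mat n tab) := by
  intro e _ f _
  rw [Mat_rep n tab _ (subset_univ _)]
  by_cases hef : e = f
  · subst hef
    simpa using ne_zero_of_chk h e
  · rw [linearIndepOn_pair_iff _ hef (ne_zero_of_chk h e)]
    intro c
    rw [chkSimple, List.all_eq_true] at h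
    have h1 := h _ (List.get_mem tab e)
    rw [Bool.and_eq_true, List.all_eq_true] at h1
    have h2 := h1.2 _ (List.get_mem tab f)
    rw [Bool.or_eq_true, beq_iff_eq, List.all_eq_true] at h2
    rcases h2 with h2 | h2
    · exact absurd ((List.nodup_iff_injective_get.1 hnd) h2) hef
    · have h3 := neSmul_spec (h2 c.val (List.mem_range.2 (ZMod.val_lt c)))
      rwa [ZMod.natCast_zmod_val] at h3

variable (n tab)

/-- the first seven points are affine, the others are directions, all directions of pairs of
affine points occur -/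
def chkDirs : Bool :=
  ((List.range 7).all fun x => (tab.getD x []).getD 0 0 == 1) &&
  (tab.drop 7).all (fun x => x.getD 0 0 == 0) &&
  (List.range 7).all fun x => (List.range 7).all fun y => x == y ||
    tab.any fun e => (List.range 6).any fun c => eqAdd n (tab.getD x []) (tab.getD y []) e (c + 1)

variable {n tab}

/-- the affine points -/
def aff (ht : 7 ≤ tab.length) (x : ZMod 7) : Fin tab.length :=
  ⟨x.val, lt_of_lt_of_le (ZMod.val_lt x) ht⟩

theorem aff_get (ht : 7 ≤ tab.length) (x : ZMod 7) : tab.get (aff ht x) = tab.getD x.val [] := by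
  have h1 : x.val < tab.length := lt_of_lt_of_le (ZMod.val_lt x) ht
  rw [List.getD_eq_getElem _ _ h1]
  rfl

theorem dirs (ht : 7 ≤ tab.length) (h : chkDirs n tab = true) (x y : ZMod 7) (hxy : x ≠ y) :
    ∃ e ∈ (Mat n tab).E, ∃ c : ZMod 7, pt n tab (aff ht x) - pt n tab (aff ht y) =
      c • pt n tab e ∧ c ≠ 0 := by
  rw [chkDirs, Bool.and_eq_true] at h
  have h1 := h.2
  rw [List.all_eq_true] at h1
  have h2 := h1 x.val (List.mem_range.2 (ZMod.val_lt x))
  rw [List.all_eq_true] at h2
  have h3 := h2 y.val (List.mem_range.2 (ZMod.val_lt y))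
  rw [Bool.or_eq_true, beq_iff_eq, List.any_eq_true] at h3
  rcases h3 with h3 | ⟨e, he, h3⟩
  · exact absurd (ZMod.val_injective 7 h3) hxy
  · rw [List.any_eq_true] at h3
    obtain ⟨c, hc, h4⟩ := h3
    obtain ⟨i, rfl⟩ := List.get_of_mem he
    have h5 := eqAdd_spec h4
    refine ⟨i, mem_univ _, ((c + 1 : ℕ) : ZMod 7), ?_, ?_⟩
    · rw [pt, pt, aff_get, aff_get, h5, pt]
      abel
    · intro h0
      rw [ZMod.natCast_eq_zero_iff] at h0
      have := Nat.le_of_dvd (by omega) h0
      have := List.mem_range.1 hc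
      omega

theorem modular_hyp (hl : chkLen n tab = true) (ht : 7 ≤ tab.length)
    (h : chkDirs n tab = true) : ∃ H, IsModularHyperplane (Mat n tab) H := by
  have := Mat_finite n tab
  have hd := dirs ht h
  rw [chkDirs, Bool.and_eq_true, Bool.and_eq_true] at h
  refine ⟨_, modular_of_dirs (Mat_rep n tab) (fn n [1]) (A := aff ht) (fun _ => mem_univ _)
    ?_ ?_ hd⟩
  · intro x
    have h1 := h.1.1
    rw [List.all_eq_true] at h1
    have h2 := h1 x.val (List.mem_range.2 (ZMod.val_lt x))
    rw [beq_iff_eq] at h2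
    rw [pt, fn_vec (len_of_chk hl _), aff_get]
    cases hx : tab.getD x.val [] with
    | nil =>
      rw [hx] at h2
      simp at h2
    | cons a as =>
      rw [hx] at h2
      simp only [List.getD_cons_zero] at h2
      subst h2
      simp [dot]
  · intro e _ he
    by_cases h7 : e.val < 7
    · refine ⟨(e.val : ZMod 7), ?_⟩
      ext
      simp only [aff, ZMod.val_natCast]
      omega
    · exfalso
      apply he
      have h1 := h.1.2
      rw [List.all_eq_true] at h1
      have h2 := h1 (tab.get e) (by
        rw [List.mem_iff_get]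
        refine ⟨⟨e.val - 7, ?_⟩, ?_⟩
        · rw [List.length_drop]
          have := e.2
          omega
        · simp only [List.get_eq_getElem, List.getElem_drop]
          congr 1
          omega)
      rw [beq_iff_eq] at h2
      rw [pt, fn_vec_eq_zero (len_of_chk hl _)]
      cases hx : tab.get e with
      | nil => simp [dot]
      | cons a as =>
        rw [hx] at h2
        simp only [List.getD_cons_zero] at h2
        subst h2
        simp [dot]

theorem Mat_block (ht : 7 ≤ tab.length) (h : chkDirs n tab = true)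
    (f : (Fin n → ZMod 7) →ₗ[ZMod 7] (Fin 1 → ZMod 7)) :
    ∃ e ∈ (Mat n tab).E, f (pt n tab e) = 0 :=
  block_of_dirs (A := aff ht) (fun _ => mem_univ _) (dirs ht h) f

theorem Mat_critExp_gt (ht : 7 ≤ tab.length) (h : chkDirs n tab = true) :
    ((1 : ℕ) : ℕ∞) < critExp (Mat n tab) (Nat.card (ZMod 7)) := by
  have := Mat_finite n tab
  exact (lt_critExp_iff (Mat_rep n tab) 1).2 (Mat_block ht h)

end Pool.Agent.Q163.TB
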